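import Pool.Agent.Helper45.U4.St3

/-!
# Project U4 (MP_a1f43d_co), module FIN: no set of eleven points of PG(3,4) meets every plane in no point or in at
least three points
-/

set_option autoImplicit false

open Module Classical
open scoped LinearAlgebra.Projectivization

namespace Pool.Agent.Helper80.U4

open Pool.Agent.Helper45.U4 Pool.Agent.Helper53.PB

theorem fin_div3 {α : Type} (S : Finset α) (B : α → Finset α) (h1 : ∀ z ∈ S, z ∈ B z)
    (h2 : ∀ z ∈ S, B z ⊆ S) (h3 : ∀ z ∈ S, (B z).card = 3) (h4 : ∀ z ∈ S, ∀ y ∈ B z, B y = B z) :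
    3 ∣ S.card := by
  rw [Finset.card_eq_sum_card_image B S]
  apply Finset.dvd_sum
  intro C hC
  obtain ⟨z, hz, rfl⟩ := Finset.mem_image.1 hC
  have h5 : S.filter (fun y => B y = B z) = B z := by
    ext y
    rw [Finset.mem_filter]
    constructor
    · rintro ⟨hy, hyz⟩
      rw [← hyz]
      exact h1 y hy
    · intro hy
      exact ⟨h2 z hz hy, h4 z hz y hy⟩
  rw [h5, h3 z hz]

variable {F W : Type} [Field F] [AddCommGroup W] [Module F W] [Finite F] [Finite W]
  [FiniteDimensional F W]

omit [Finite F] [Finite W] [FiniteDimensional F W] in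
theorem fin_line_comm (P R : ℙ F W) : line P R = line R P := sup_comm _ _

omit [Finite F] [Finite W] [FiniteDimensional F W] in
/-- two points of `S` on a line -/
theorem fin_two {S : Finset (ℙ F W)} {z y : ℙ F W} (hz : z ∈ S) (hy : y ∈ S) (h : y ≠ z) :
    2 ≤ tt S (line z y) := by
  unfold tt
  have h1 : ({z, y} : Finset (ℙ F W)) ⊆ S.filter (fun x => x.rep ∈ line z y) := by
    intro x hx
    rw [Finset.mem_insert, Finset.mem_singleton] at hx
    rw [Finset.mem_filter]
    rcases hx with rfl | rfl
    · exact ⟨hz, left_mem_line _ _⟩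
    · exact ⟨hy, right_mem_line _ _⟩
  have h2 := Finset.card_le_card h1
  rwa [Finset.card_pair (Ne.symm h)] at h2

/-- the structure of the lines through a point of `S` -/
theorem fin_local (hD : StDBL) (S : Finset (ℙ F W)) (hF : Nat.card F = 4) (hW : finrank F W = 4)
    (hS : S.card = 11) (hH : ∀ H : Submodule F W, finrank F H = 3 → tt S H = 0 ∨ 3 ≤ tt S H)
    (z : ℙ F W) (hz : z ∈ S) :
    ∃ A B : Submodule F W, finrank F A = 3 ∧ finrank F B = 3 ∧ z.rep ∈ A ∧ z.rep ∈ B ∧
      ∀ y : ℙ F W, y ≠ z → tt S (line z y) =
        1 + (if y.rep ∈ A then 1 else 0) + (if y.rep ∈ B then 1 else 0) := by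
  let N : Submodule F W := Submodule.span F {z.rep}
  let π : W →ₗ[F] (W ⧸ N) := N.mkQ
  have hN : finrank F N = 1 := finrank_span_singleton z.rep_nonzero
  have hE : finrank F (W ⧸ N) = 3 := by
    have := N.finrank_quotient_add_finrank
    omega
  have hπz : π z.rep = 0 := by
    change N.mkQ z.rep = 0
    rw [Submodule.mkQ_apply, Submodule.Quotient.mk_eq_zero]
    exact Submodule.mem_span_singleton_self _
  have hπ : ∀ y : ℙ F W, y ≠ z → π y.rep ≠ 0 := by
    intro y hy h
    apply hy
    apply eq_of_rep_mem_span
    change N.mkQ y.rep = 0 at h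
    rwa [Submodule.mkQ_apply, Submodule.Quotient.mk_eq_zero] at h
  have : Finite (W ⧸ N) := Finite.of_surjective π N.mkQ_surjective
  let K : ℙ F (W ⧸ N) → ℕ := fun Q =>
    ((S.erase z).filter (fun y => π y.rep ∈ Submodule.span F {Q.rep})).card
  have hcnt : ∀ L : Submodule F (W ⧸ N),
      ∑ Q ∈ pts L, K Q = ((S.erase z).filter (fun y => π y.rep ∈ L)).card := by
    intro L
    change ∑ Q ∈ pts L, ((S.erase z).filter (fun y => π y.rep ∈ Submodule.span F {Q.rep})).card = _
    simp_rw [Finset.card_filter]
    rw [Finset.sum_comm]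
    apply Finset.sum_congr rfl
    intro y hy
    have hyz : y ≠ z := (Finset.mem_erase.1 hy).1
    have h0 := hπ y hyz
    have h1 : ∀ Q : ℙ F (W ⧸ N), π y.rep ∈ Submodule.span F {Q.rep} ↔
        Q = Projectivization.mk F (π y.rep) h0 := by
      intro Q
      rw [← rep_mk_mem h0]
      constructor
      · intro h
        exact (eq_of_rep_mem_span h).symm
      · intro h
        rw [h]
        exact Submodule.mem_span_singleton_self _
    simp_rw [h1]
    rw [Finset.sum_ite_eq']
    have h5 : Projectivization.mk F (π y.rep) h0 ∈ pts L ↔ π y.rep ∈ L := by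
      rw [mem_pts, rep_mk_mem]
    by_cases h6 : π y.rep ∈ L
    · rw [if_pos h6, if_pos (h5.2 h6)]
    · rw [if_neg h6, if_neg (fun h => h6 (h5.1 h))]
  have htot : ∑ Q, K Q = 10 := by
    have h1 := hcnt ⊤
    have h2 : pts (⊤ : Submodule F (W ⧸ N)) = Finset.univ := by
      ext P
      rw [mem_pts]
      simp
    rw [h2] at h1
    rw [h1]
    have h3 : (S.erase z).filter (fun y => π y.rep ∈ (⊤ : Submodule F (W ⧸ N))) = S.erase z := by
      apply Finset.filter_true_of_mem
      intro y _
      exact Submodule.mem_top
    rw [h3, Finset.card_erase_of_mem hz, hS]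
  have hfr : ∀ L : Submodule F (W ⧸ N), finrank F (L.comap π) = finrank F L + 1 := by
    intro L
    have h1 := LinearMap.finrank_range_add_finrank_ker (L.mkQ ∘ₗ π)
    have h2 : LinearMap.ker (L.mkQ ∘ₗ π) = L.comap π := by
      rw [LinearMap.ker_comp, Submodule.ker_mkQ]
    have h3 : LinearMap.range (L.mkQ ∘ₗ π) = ⊤ := by
      rw [LinearMap.range_eq_top]
      exact L.mkQ_surjective.comp N.mkQ_surjective
    rw [h2, h3, finrank_top, hW] at h1
    have h4 := L.finrank_quotient_add_finrank
    omega
  have hins : ∀ L : Submodule F (W ⧸ N), tt S (L.comap π) =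
      1 + ((S.erase z).filter (fun y => π y.rep ∈ L)).card := by
    intro L
    unfold tt
    have h1 : S.filter (fun y => y.rep ∈ L.comap π) =
        insert z ((S.erase z).filter (fun y => π y.rep ∈ L)) := by
      ext y
      rw [Finset.mem_insert, Finset.mem_filter, Finset.mem_filter, Finset.mem_erase,
        Submodule.mem_comap]
      constructor
      · rintro ⟨h2, h3⟩
        by_cases hyz : y = z
        · exact Or.inl hyz
        · exact Or.inr ⟨⟨hyz, h2⟩, h3⟩
      · rintro (rfl | ⟨⟨_, h2⟩, h3⟩)
        · refine ⟨hz, ?_⟩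
          rw [hπz]
          exact L.zero_mem
        · exact ⟨h2, h3⟩
    rw [h1, Finset.card_insert_of_notMem, add_comm]
    rw [Finset.mem_filter, Finset.mem_erase]
    exact fun h => h.1.1 rfl
  obtain ⟨L, M, hL, hM, hLM⟩ := hD K hF hE htot (by
    intro L hL
    rw [hcnt]
    have h1 := hins L
    have h2 := hfr L
    rw [hL] at h2
    rcases hH _ h2 with h3 | h3 <;> omega)
  refine ⟨L.comap π, M.comap π, by rw [hfr, hL], by rw [hfr, hM], ?_, ?_, ?_⟩
  · rw [Submodule.mem_comap, hπz]
    exact L.zero_mem
  · rw [Submodule.mem_comap, hπz]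
    exact M.zero_mem
  · intro y hy
    have h0 := hπ y hy
    have h1 := hLM (Projectivization.mk F (π y.rep) h0)
    rw [rep_mk_mem, rep_mk_mem] at h1
    have h2 : line z y = (Submodule.span F {(Projectivization.mk F (π y.rep) h0).rep}).comap π := by
      symm
      have h3 : line z y ≤
          (Submodule.span F {(Projectivization.mk F (π y.rep) h0).rep}).comap π := by
        apply line_le
        · rw [Submodule.mem_comap, hπz]
          exact Submodule.zero_mem _
        · rw [Submodule.mem_comap, ← rep_mk_mem h0]
          exact Submodule.mem_span_singleton_self _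
      symm
      apply Submodule.eq_of_le_of_finrank_eq h3
      rw [finrank_line (Ne.symm hy), hfr, finrank_span_singleton (Projectivization.rep_nonzero _)]
    rw [h2, hins, add_assoc, Submodule.mem_comap, Submodule.mem_comap, ← h1]

theorem hFIN (hD : StDBL) : StFIN := by
  intro F W _ _ _ _ _ _ S hF hW hS hH
  have hloc := fin_local hD S hF hW hS hH
  choose! A B hA hB hzA hzB hline using hloc
  have hone : ∀ z y : ℙ F W, y ≠ z → z ∈ S → y.rep ∈ A z ⊓ B z → tt S (line z y) = 3 := by
    intro z y hy hz hyz
    obtain ⟨h1, h2⟩ := Submodule.mem_inf.1 hyz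
    rw [hline z hz y hy, if_pos h1, if_pos h2]
  by_cases hcase : ∀ z ∈ S, A z ≠ B z
  · -- the lines with three points of `S` partition `S`
    have hfr : ∀ z ∈ S, finrank F (A z ⊓ B z : Submodule F W) = 2 := by
      intro z hz
      have h1 := Submodule.finrank_sup_add_finrank_inf_eq (A z) (B z)
      have h2 : finrank F (A z) < finrank F (A z ⊔ B z : Submodule F W) := by
        apply Submodule.finrank_lt_finrank_of_lt
        apply lt_of_le_of_ne le_sup_left
        intro h
        apply hcase z hz
        symm
        apply Submodule.eq_of_le_of_finrank_eq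
        · rw [h]
          exact le_sup_right
        · rw [hA z hz, hB z hz]
      have h3 : finrank F (A z ⊔ B z : Submodule F W) ≤ finrank F W := Submodule.finrank_le _
      have h4 := hA z hz
      have h5 := hB z hz
      omega
    have hexl : ∀ z ∈ S, ∀ y : ℙ F W, y ≠ z → y.rep ∈ A z ⊓ B z → line z y = A z ⊓ B z := by
      intro z hz y hy hyz
      apply Submodule.eq_of_le_of_finrank_eq
        (line_le (Submodule.mem_inf.2 ⟨hzA z hz, hzB z hz⟩) hyz)
      rw [finrank_line (Ne.symm hy), hfr z hz]
    have h3 : 3 ∣ S.card := by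
      refine fin_div3 S (fun z => S.filter (fun y => y.rep ∈ A z ⊓ B z)) ?_ ?_ ?_ ?_
      · intro z hz
        exact Finset.mem_filter.2 ⟨hz, hzA z hz, hzB z hz⟩
      · intro z _
        exact Finset.filter_subset _ _
      · intro z hz
        have h4 : 1 < (pts (A z ⊓ B z)).card := by
          rw [card_pts, hfr z hz, geo_two, hF]
          norm_num
        obtain ⟨y, hy, hyz⟩ := Finset.exists_mem_ne h4 z
        rw [mem_pts] at hy
        have h5 := hone z y hyz hz hy
        rw [hexl z hz y hyz hy] at h5
        exact h5
      · intro z hz y hy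
        obtain ⟨hyS, hyz⟩ := Finset.mem_filter.1 hy
        by_cases hne : y = z
        · rw [hne]
        · have h4 := hone z y hne hz hyz
          rw [fin_line_comm, hline y hyS z (Ne.symm hne)] at h4
          have h5 : z.rep ∈ A y ⊓ B y := by
            refine ⟨?_, ?_⟩
            · by_contra h
              have h' : z.rep ∉ A y := h
              rw [if_neg h'] at h4
              split_ifs at h4 <;> omega
            · by_contra h
              have h' : z.rep ∉ B y := h
              rw [if_neg h'] at h4
              split_ifs at h4 <;> omega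
          have h6 := hexl z hz y hne hyz
          have h7 := hexl y hyS z (Ne.symm hne) h5
          have h8 : A y ⊓ B y = A z ⊓ B z := by rw [← h7, ← h6, fin_line_comm]
          change S.filter (fun x => x.rep ∈ A y ⊓ B y) = S.filter (fun x => x.rep ∈ A z ⊓ B z)
          rw [h8]
    rw [hS] at h3
    omega
  · push Not at hcase
    obtain ⟨z, hz, hAB⟩ := hcase
    have hSH : ∀ y ∈ S, y.rep ∈ A z := by
      intro y hy
      by_cases hne : y = z
      · rw [hne]
        exact hzA z hz
      · have h1 := fin_two hz hy hne
        rw [hline z hz y hne] at h1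
        by_contra h
        rw [← hAB, if_neg h] at h1
        omega
    -- all local planes are `A z`
    have key : ∀ z' ∈ S, ∀ C : Submodule F W, finrank F C = 3 →
        (∀ y : ℙ F W, y ≠ z' → y.rep ∈ C → 2 ≤ tt S (line z' y)) → C = A z := by
      intro z' hz' C hC h2
      apply Submodule.eq_of_le_of_finrank_eq
      · intro v hv
        by_cases hv0 : v = 0
        · rw [hv0]
          exact Submodule.zero_mem _
        · rw [← rep_mk_mem hv0] at hv ⊢
          by_cases hne : Projectivization.mk F v hv0 = z'
          · rw [hne]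
            exact hSH z' hz'
          · have h3 := h2 _ hne hv
            unfold tt at h3
            obtain ⟨x, hx, hxz⟩ := Finset.exists_mem_ne (show 1 < _ from h3) z'
            obtain ⟨hxS, hxl⟩ := Finset.mem_filter.1 hx
            have h4 := line_eq (Ne.symm hne) hxl hxz
            have h5 : (Projectivization.mk F v hv0).rep ∈ line z' x := by
              rw [h4]
              exact right_mem_line _ _
            exact line_le (hSH z' hz') (hSH x hxS) h5
      · rw [hC, hA z hz]
    have hall : ∀ z' ∈ S, A z' = A z ∧ B z' = A z := by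
      intro z' hz'
      constructor
      · apply key z' hz' _ (hA z' hz')
        intro y hy hyA
        rw [hline z' hz' y hy, if_pos hyA]
        omega
      · apply key z' hz' _ (hB z' hz')
        intro y hy hyB
        rw [hline z' hz' y hy, if_pos hyB]
        omega
    obtain ⟨P, hP, hPS⟩ : ∃ P ∈ pts (A z), P ∉ S := by
      by_contra hcon
      push Not at hcon
      have h1 := Finset.card_le_card (show pts (A z) ⊆ S from hcon)
      rw [card_pts, hA z hz, hF, hS] at h1
      simp [geo, Finset.sum_range_succ] at h1
    rw [mem_pts] at hP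
    have hne : ∀ y ∈ S, y ≠ P := fun y hy h => hPS (h ▸ hy)
    have h3 : 3 ∣ S.card := by
      refine fin_div3 S (fun y => S.filter (fun x => x.rep ∈ line y P)) ?_ ?_ ?_ ?_
      · intro y hy
        exact Finset.mem_filter.2 ⟨hy, left_mem_line _ _⟩
      · intro y _
        exact Finset.filter_subset _ _
      · intro y hy
        refine hone y P (Ne.symm (hne y hy)) hy ?_
        rw [(hall y hy).1, (hall y hy).2]
        exact ⟨hP, hP⟩
      · intro y hy x hx
        obtain ⟨hxS, hxl⟩ := Finset.mem_filter.1 hx
        have h4 : line P x = line P y := by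
          apply line_eq (Ne.symm (hne y hy))
          · rw [fin_line_comm]
            exact hxl
          · exact hne x hxS
        change S.filter (fun w => w.rep ∈ line x P) = S.filter (fun w => w.rep ∈ line y P)
        rw [fin_line_comm x P, fin_line_comm y P, h4]
    rw [hS] at h3
    omega

end Pool.Agent.Helper80.U4
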